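import Pool.Agent.Q149.Oct5

/-!
# MP_a0a64f, Q1: separating eight points in space by three planes

Every set of eight points in general position in `ℝ³` is separated by three planes: the planes
avoid the points and each of the eight octants they determine contains exactly one of the points.
The same holds with `8 m` points and exactly `m` of them in each octant, for every `m ≥ 1`.

The notions `E3`, `GeneralPosition` and `SeparatedByThreePlanes` are in `Pool.Agent.Q149.OctDefs`.
-/

namespace Pool.Agent.Results.MP_a0a64f_co.ThreePlanes

open Q149.Oct

theorem result :
    (∀ P : Finset E3, P.card = 8 → GeneralPosition P → SeparatedByThreePlanes 1 P) ∧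
    (∀ (m : ℕ) (P : Finset E3), 0 < m → P.card = 8 * m → GeneralPosition P →
      SeparatedByThreePlanes m P) :=
  ⟨fun P hP hg => main 1 one_pos P (by omega) hg, fun m P hm hP hg => main m hm P hP hg⟩

end Pool.Agent.Results.MP_a0a64f_co.ThreePlanes
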